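import Pool.Agent.Run7.h401.MQ.Plc
import Pool.Agent.Y698.SG.Az

/-!
# The L-function of the twists of `X_0(49)` over a multiquadratic field
-/

set_option autoImplicit false
set_option linter.unusedSectionVars false

open NumberField IsDedekindDomain WeierstrassCurve Pool.Agent.W189.NF
open Pool.Agent.H921R2.TatePole Pool.Agent.H82R3.EK
open Pool.Agent.Y698 Pool.Agent.Y698.SG
open W165.CE (pw)
open scoped symmDiff

namespace Run7.h401.Fl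

section

variable {F : Type} [Field F] [NumberField F] {H : Finset (Finset ℕ)} {r : Finset ℕ → F}

/-- the product over the places above a prime -/
theorem MQ.prod_places (h : MQ F H r) {S : Finset ℕ} (hS : ∀ q ∈ S, Gp q)
    (hd : ∀ T ∈ H, Disjoint S T) {j : ℕ} (hj : ∏ q ∈ S, q = 1 + 4 * j) (s : ℂ) (q : Nat.Primes) :
    ∏ v : {v : HeightOneSpectrum (𝓞 F) // below v = q}, LFD j s v.1 =
      ∏ T ∈ H, (1 - bc q * ((∏ p ∈ S ∪ T, qch p (q : ℕ)) * ((q : ℕ) : ℂ) ^ (-s)) +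
        ec q * ((∏ p ∈ S ∪ T, qch p (q : ℕ)) * ((q : ℕ) : ℂ) ^ (-s)) ^ 2)⁻¹ := by
  classical
  have h7' : ∀ v : HeightOneSpectrum (𝓞 F), (below v : ℕ) = 7 →
      v.valuation F ((7 : ℕ) : F) = WithZero.exp (-1 : ℤ) := by
    intro v hv
    refine h.val_one v hv fun T hT h7 => ?_
    have := (h.pr T hT 7 h7).2
    norm_num at this
  have hS' : ∀ v : HeightOneSpectrum (𝓞 F), ∀ p ∈ S, (below v : ℕ) = p →
      v.valuation F ((p : ℕ) : F) = WithZero.exp (-1 : ℤ) := by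
    intro v p hp hv
    exact h.val_one v hv fun T hT hpT => Finset.disjoint_left.1 (hd T hT) hp hpT
  have hLF : ∀ v : HeightOneSpectrum (𝓞 F), below v = q → LFD j s v =
      (1 - (∏ p ∈ S, qch p (q : ℕ)) ^ deg v * pw (bc (q : ℕ)) (ec (q : ℕ)) (deg v) *
        (((q : ℕ) : ℂ) ^ (-s)) ^ deg v + ((∏ p ∈ S, qch p (q : ℕ)) ^ 2 * ec (q : ℕ)) ^ deg v *
        ((((q : ℕ) : ℂ) ^ (-s)) ^ deg v) ^ 2)⁻¹ := by
    intro v hv
    obtain ⟨c1, c2⟩ := coeffsD v hS hj (h7' v) (hS' v)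
    unfold LFD
    rw [c1, c2, (nm_eq v).1, Pool.Agent.W164.RC.pow_cpow', hv]
  set ε : ℂ := ∏ p ∈ S, qch p (q : ℕ) with hε
  have hT : ∀ T ∈ H, ∏ p ∈ S ∪ T, qch p (q : ℕ) = ε * (ch T q : ℂ) := by
    intro T hT
    rw [Finset.prod_union (hd T hT), ← hε]
    congr 1
    rw [eps_eq (fun q hq => ⟨(h.pr T hT q hq).1, (h.pr T hT q hq).2⟩)]
    rfl
  have hR : ∏ T ∈ H, (1 - bc q * ((∏ p ∈ S ∪ T, qch p (q : ℕ)) * ((q : ℕ) : ℂ) ^ (-s)) +
        ec q * ((∏ p ∈ S ∪ T, qch p (q : ℕ)) * ((q : ℕ) : ℂ) ^ (-s)) ^ 2)⁻¹ =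
      (∏ T ∈ H, (1 - bc q * ((ch T q : ℂ) * (ε * ((q : ℕ) : ℂ) ^ (-s))) +
        ec q * ((ch T q : ℂ) * (ε * ((q : ℕ) : ℂ) ^ (-s))) ^ 2))⁻¹ := by
    rw [← Finset.prod_inv_distrib]
    refine Finset.prod_congr rfl fun T hT' => ?_
    rw [hT T hT']
    congr 1
    ring
  rw [hR, h.prod_quad q.2]
  have hcount := h.count q
  have hdeg : ∀ v : {v : HeightOneSpectrum (𝓞 F) // below v = q}, deg v.1 = ff H q := fun v =>
    h.deg_eq v.1 (by rw [v.2])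
  have hprod : ∏ v : {v : HeightOneSpectrum (𝓞 F) // below v = q}, LFD j s v.1 =
      ((1 - ε ^ (ff H q) * pw (bc (q : ℕ)) (ec (q : ℕ)) (ff H q) *
        (((q : ℕ) : ℂ) ^ (-s)) ^ (ff H q) + (ε ^ 2 * ec (q : ℕ)) ^ (ff H q) *
        ((((q : ℕ) : ℂ) ^ (-s)) ^ (ff H q)) ^ 2)⁻¹) ^
          Fintype.card {v : HeightOneSpectrum (𝓞 F) // below v = q} := by
    rw [Finset.prod_congr rfl (fun v _ => by rw [hLF v.1 v.2, hdeg v]), Finset.prod_const,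
      Finset.card_univ]
  rw [hprod, inv_pow]
  by_cases hf : ff H (q : ℕ) = 1
  · rw [if_pos hf, hf]
    rw [hf, mul_one] at hcount
    rw [← hcount]
    have e : pw (bc (q : ℕ)) (ec (q : ℕ)) 1 = bc (q : ℕ) := rfl
    rw [e]
    congr 2
    ring
  · have hf2 : ff H (q : ℕ) = 2 := by
      unfold ff at hf ⊢
      split_ifs at hf ⊢ with h1
      · exact absurd rfl hf
      · rfl
    rw [if_neg hf, hf2]
    rw [hf2] at hcount
    rw [← hcount, Nat.mul_div_cancel _ (by norm_num)]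
    have e : pw (bc (q : ℕ)) (ec (q : ℕ)) 2 = bc (q : ℕ) * bc (q : ℕ) - ec (q : ℕ) * 2 := rfl
    rw [e]
    congr 2
    ring

/-- **the L-function over the field** -/
theorem MQ.lseries (h : MQ F H r) {S : Finset ℕ} (hS : ∀ q ∈ S, Gp q)
    (hd : ∀ T ∈ H, Disjoint S T) {j : ℕ} (hj : ∏ q ∈ S, q = 1 + 4 * j) {G : Finset ℕ → ℂ → ℂ}
    (g2 : ∀ T ∈ H, ∀ z : ℂ, 3 / 2 < z.re → HasProd (fun p : Nat.Primes =>
      (1 - bc p * ((∏ q ∈ S ∪ T, qch q (p : ℕ)) * ((p : ℕ) : ℂ) ^ (-z)) +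
      ec p * ((∏ q ∈ S ∪ T, qch q (p : ℕ)) * ((p : ℕ) : ℂ) ^ (-z)) ^ 2)⁻¹) (G T z)) :
    ∀ s : ℂ, 2 < s.re → ∏ T ∈ H, G T s = (EX F (j : F)).LSeries s := by
  classical
  intro s hs
  have hs' : 3 / 2 < s.re := by linarith
  have h1 : HasProd (fun q : Nat.Primes => ∏ T ∈ H,
      (1 - bc q * ((∏ p ∈ S ∪ T, qch p (q : ℕ)) * ((q : ℕ) : ℂ) ^ (-s)) +
      ec q * ((∏ p ∈ S ∪ T, qch p (q : ℕ)) * ((q : ℕ) : ℂ) ^ (-s)) ^ 2)⁻¹) (∏ T ∈ H, G T s) :=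
    hasProd_prod fun T hT => g2 T hT s hs'
  simp_rw [← h.prod_places hS hd hj s] at h1
  have h2 := (LSeries_hasProd (EX F (j : F)) hs).2
  have h3 := (Equiv.sigmaFiberEquiv (below (K := F))).hasProd_iff.2 h2
  have h4 := h3.sigma (g := fun q : Nat.Primes =>
    ∏ v : {v : HeightOneSpectrum (𝓞 F) // below v = q}, LFD j s v.1) (fun q => hasProd_fintype _)
  exact h1.unique h4

end

end Run7.h401.Fl
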