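import Mathlib

/-!
# Multiquadratic fields generated by square roots of products of primes `≡ 1 mod 4`
-/

set_option autoImplicit false

open scoped symmDiff

namespace Run7.h401.Fl

/-- `F` is generated by the square roots `r T` of the products of the elements of the sets `T ∈ H`,
and `H` is closed under symmetric differences. -/
structure MQ (F : Type) [Field F] [NumberField F] (H : Finset (Finset ℕ)) (r : Finset ℕ → F) :
    Prop where
  pr : ∀ T ∈ H, ∀ l ∈ T, l.Prime ∧ l % 4 = 1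
  emp : ∅ ∈ H
  sd : ∀ T ∈ H, ∀ T' ∈ H, symmDiff T T' ∈ H
  sq : ∀ T ∈ H, r T ^ 2 = ((∏ l ∈ T, l : ℕ) : F)
  gen : ∀ K : Subfield F, (∀ T ∈ H, r T ∈ K) → K = ⊤

section

variable {F : Type} [Field F] [NumberField F] {H : Finset (Finset ℕ)} {r : Finset ℕ → F}

theorem MQ.prod_pos (h : MQ F H r) {T : Finset ℕ} (hT : T ∈ H) : 0 < ∏ l ∈ T, l :=
  Finset.prod_pos fun l hl => (h.pr T hT l hl).1.pos

theorem MQ.r_ne (h : MQ F H r) {T : Finset ℕ} (hT : T ∈ H) : r T ≠ 0 := by
  intro h0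
  have h1 := h.sq T hT
  rw [h0, zero_pow two_ne_zero] at h1
  have h2 := (h.prod_pos hT).ne'
  exact h2 (by exact_mod_cast h1.symm)

/-- the field is the algebra generated by the roots -/
theorem MQ.adj (h : MQ F H r) : Algebra.adjoin ℚ (r '' (H : Set (Finset ℕ))) = ⊤ := by
  have h1 : IntermediateField.adjoin ℚ (r '' (H : Set (Finset ℕ))) = ⊤ := by
    have h2 := h.gen (IntermediateField.adjoin ℚ (r '' (H : Set (Finset ℕ)))).toSubfield
      fun T hT => IntermediateField.subset_adjoin ℚ _ ⟨T, hT, rfl⟩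
    rw [eq_top_iff]
    intro x _
    have h3 : x ∈ (⊤ : Subfield F) := trivial
    rw [← h2] at h3
    exact h3
  rw [← IntermediateField.adjoin_toSubalgebra, h1]
  rfl

theorem MQ.isGalois (h : MQ F H r) : IsGalois ℚ F := by
  classical
  let p : Polynomial ℚ := ∏ T ∈ H, (Polynomial.X ^ 2 - Polynomial.C ((∏ l ∈ T, l : ℕ) : ℚ))
  have hfac : ∀ T ∈ H, (Polynomial.X ^ 2 - Polynomial.C ((∏ l ∈ T, l : ℕ) : ℚ)).map
      (algebraMap ℚ F) = (Polynomial.X - Polynomial.C (r T)) * (Polynomial.X - Polynomial.C (-r T)) := by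
    intro T hT
    have h1 := h.sq T hT
    have h2 : algebraMap ℚ F ((∏ l ∈ T, l : ℕ) : ℚ) = r T ^ 2 := by
      rw [h1, map_natCast]
    rw [Polynomial.map_sub, Polynomial.map_pow, Polynomial.map_X, Polynomial.map_C, h2, map_neg,
      map_pow]
    ring
  have hp0 : p ≠ 0 := Finset.prod_ne_zero_iff.2 fun T _ =>
    Polynomial.X_pow_sub_C_ne_zero (by norm_num) _
  have hsp : (p.map (algebraMap ℚ F)).Splits := by
    rw [Polynomial.map_prod]
    refine Polynomial.Splits.prod fun T hT => ?_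
    rw [hfac T hT]
    exact (Polynomial.Splits.X_sub_C _).mul (Polynomial.Splits.X_sub_C _)
  have hS : p.IsSplittingField ℚ F := by
    refine ⟨hsp, ?_⟩
    rw [eq_top_iff, ← h.adj]
    refine Algebra.adjoin_mono ?_
    rintro _ ⟨T, hT, rfl⟩
    rw [Polynomial.mem_rootSet]
    refine ⟨hp0, ?_⟩
    show Polynomial.aeval (r T) (∏ T ∈ H, (Polynomial.X ^ 2 - Polynomial.C ((∏ l ∈ T, l : ℕ) : ℚ))) = 0
    rw [map_prod]
    refine Finset.prod_eq_zero (Finset.mem_coe.1 hT) ?_
    have h1 := h.sq T hT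
    simp only [map_sub, map_pow, Polynomial.aeval_X, Polynomial.aeval_C]
    rw [h1, map_natCast, sub_self]
  have hN : Normal ℚ F := Normal.of_isSplittingField p
  exact isGalois_iff.2 ⟨inferInstance, hN⟩

theorem MQ.sgn (h : MQ F H r) (σ : F ≃ₐ[ℚ] F) {T : Finset ℕ} (hT : T ∈ H) :
    σ (r T) = r T ∨ σ (r T) = -r T := by
  rw [← sq_eq_sq_iff_eq_or_eq_neg, ← map_pow, h.sq T hT, map_natCast]

theorem MQ.eq_one (h : MQ F H r) {σ : F ≃ₐ[ℚ] F} (hσ : ∀ T ∈ H, σ (r T) = r T) : σ = 1 := by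
  let K : Subfield F := (IntermediateField.fixedField (Subgroup.zpowers σ)).toSubfield
  have hmem : ∀ x : F, σ x = x → x ∈ K := by
    intro x hx
    show x ∈ IntermediateField.fixedField (Subgroup.zpowers σ)
    rw [IntermediateField.mem_fixedField_iff]
    rintro τ ⟨k, rfl⟩
    have h1 : σ ∈ MulAction.stabilizer (F ≃ₐ[ℚ] F) x := hx
    exact (MulAction.stabilizer (F ≃ₐ[ℚ] F) x).zpow_mem h1 k
  have hK := h.gen K fun T hT => hmem _ (hσ T hT)
  ext x
  have hx : x ∈ K := by rw [hK]; trivial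
  have hx' : x ∈ IntermediateField.fixedField (Subgroup.zpowers σ) := hx
  rw [IntermediateField.mem_fixedField_iff] at hx'
  exact hx' σ (Subgroup.mem_zpowers σ)

theorem MQ.sq_one (h : MQ F H r) (σ : F ≃ₐ[ℚ] F) : σ * σ = 1 := by
  refine h.eq_one fun T hT => ?_
  rw [AlgEquiv.mul_apply]
  rcases h.sgn σ hT with h1 | h1
  · rw [h1, h1]
  · rw [h1, map_neg, h1, neg_neg]

/-- the product of two roots -/
theorem MQ.mul (h : MQ F H r) {T T' : Finset ℕ} (hT : T ∈ H) (hT' : T' ∈ H) :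
    r T * r T' = ((∏ l ∈ T ∩ T', l : ℕ) : F) * r (symmDiff T T') ∨
    r T * r T' = -(((∏ l ∈ T ∩ T', l : ℕ) : F) * r (symmDiff T T')) := by
  rw [← sq_eq_sq_iff_eq_or_eq_neg, mul_pow, mul_pow, h.sq T hT, h.sq T' hT', h.sq _ (h.sd T hT T' hT')]
  have h1 : ∏ l ∈ T, l = (∏ l ∈ T \ T', l) * ∏ l ∈ T ∩ T', l := by
    rw [← Finset.prod_union (Finset.disjoint_sdiff_inter T T'), Finset.sdiff_union_inter]
  have h2 : ∏ l ∈ T', l = (∏ l ∈ T' \ T, l) * ∏ l ∈ T ∩ T', l := by
    rw [Finset.inter_comm, ← Finset.prod_union (Finset.disjoint_sdiff_inter T' T),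
      Finset.sdiff_union_inter]
  have h3 : ∏ l ∈ symmDiff T T', l = (∏ l ∈ T \ T', l) * ∏ l ∈ T' \ T, l := by
    have h4 : symmDiff T T' = (T \ T') ∪ (T' \ T) := rfl
    rw [h4, Finset.prod_union]
    exact disjoint_sdiff_sdiff
  rw [h1, h2, h3]
  push_cast
  ring

theorem MQ.span_top (h : MQ F H r) : Submodule.span ℚ (r '' (H : Set (Finset ℕ))) = ⊤ := by
  classical
  set W := Submodule.span ℚ (r '' (H : Set (Finset ℕ))) with hW
  have hmem : ∀ T ∈ H, r T ∈ W := fun T hT => Submodule.subset_span ⟨T, hT, rfl⟩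
  have h1 : (1 : F) ∈ W := by
    have h2 := h.sq ∅ h.emp
    rw [Finset.prod_empty, Nat.cast_one, sq_eq_one_iff] at h2
    rcases h2 with h2 | h2
    · rw [← h2]
      exact hmem _ h.emp
    · have h3 := neg_mem (hmem _ h.emp)
      rwa [h2, neg_neg] at h3
  have h2 : ∀ T ∈ H, ∀ T' ∈ H, r T * r T' ∈ W := by
    intro T hT T' hT'
    have h3 : ((∏ l ∈ T ∩ T', l : ℕ) : F) * r (symmDiff T T') ∈ W := by
      have h4 := W.smul_mem ((∏ l ∈ T ∩ T', l : ℕ) : ℚ) (hmem _ (h.sd T hT T' hT'))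
      rwa [Algebra.smul_def, map_natCast] at h4
    rcases h.mul hT hT' with h5 | h5
    · rw [h5]
      exact h3
    · rw [h5]
      exact neg_mem h3
  have h3 : ∀ x ∈ W, ∀ T ∈ H, x * r T ∈ W := by
    intro x hx T hT
    induction hx using Submodule.span_induction with
    | mem x hx =>
      obtain ⟨T', hT', rfl⟩ := hx
      exact h2 T' hT' T hT
    | zero => rw [zero_mul]; exact zero_mem _
    | add x y _ _ ihx ihy => rw [add_mul]; exact add_mem ihx ihy
    | smul a x _ ih => rw [smul_mul_assoc]; exact W.smul_mem a ih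
  have h4 : ∀ x ∈ W, ∀ y ∈ W, x * y ∈ W := by
    intro x hx y hy
    induction hy using Submodule.span_induction with
    | mem y hy =>
      obtain ⟨T', hT', rfl⟩ := hy
      exact h3 x hx T' hT'
    | zero => rw [mul_zero]; exact zero_mem _
    | add y z _ _ ihy ihz => rw [mul_add]; exact add_mem ihy ihz
    | smul a y _ ih => rw [mul_smul_comm]; exact W.smul_mem a ih
  rw [eq_top_iff]
  intro x hx0
  clear hx0
  have h5 : x ∈ Algebra.adjoin ℚ (r '' (H : Set (Finset ℕ))) := by rw [h.adj]; trivial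
  induction h5 using Algebra.adjoin_induction with
  | mem x hx => exact Submodule.subset_span hx
  | algebraMap a =>
    have h6 := W.smul_mem a h1
    rwa [Algebra.smul_def, mul_one] at h6
  | add x y _ _ ihx ihy => exact add_mem ihx ihy
  | mul x y _ _ ihx ihy => exact h4 _ ihx _ ihy

theorem MQ.inj (h : MQ F H r) {T T' : Finset ℕ} (hT : T ∈ H) (hT' : T' ∈ H)
    (hr : ∀ σ : F ≃ₐ[ℚ] F, (σ (r T) = r T ↔ σ (r T') = r T')) : T = T' := by
  have hG := h.isGalois
  have h0 := h.sd T hT T' hT'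
  have h1 : ∀ σ : F ≃ₐ[ℚ] F, σ (r (symmDiff T T')) = r (symmDiff T T') := by
    intro σ
    have h2 : σ (r T * r T') = r T * r T' := by
      rw [map_mul]
      rcases h.sgn σ hT with h3 | h3
      · rw [h3, (hr σ).1 h3]
      · rcases h.sgn σ hT' with h4 | h4
        · have h5 := (hr σ).2 h4
          rw [h5, h4]
        · rw [h3, h4, neg_mul_neg]
    have hd : ((∏ l ∈ T ∩ T', l : ℕ) : F) ≠ 0 := by
      have : 0 < ∏ l ∈ T ∩ T', l := Finset.prod_pos fun l hl =>
        (h.pr T hT l (Finset.mem_inter.1 hl).1).1.pos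
      exact_mod_cast this.ne'
    rcases h.mul hT hT' with h5 | h5
    · rw [h5, map_mul, map_natCast] at h2
      exact mul_left_cancel₀ hd h2
    · rw [h5, map_neg, map_mul, map_natCast, neg_inj] at h2
      exact mul_left_cancel₀ hd h2
  have h2 : r (symmDiff T T') ∈ (⊥ : IntermediateField ℚ F) :=
    (IsGalois.mem_bot_iff_fixed _).2 h1
  rw [IntermediateField.mem_bot] at h2
  obtain ⟨q, hq⟩ := h2
  have h3 := h.sq _ h0
  rw [← hq, ← map_pow] at h3
  have h4 : q ^ 2 = ((∏ l ∈ symmDiff T T', l : ℕ) : ℚ) := by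
    apply (algebraMap ℚ F).injective
    rw [h3, map_natCast]
  have h5 : IsSquare ((∏ l ∈ symmDiff T T', l : ℕ) : ℚ) := ⟨q, by rw [← h4, pow_two]⟩
  rw [Rat.isSquare_natCast_iff] at h5
  obtain ⟨m, hm⟩ := h5
  by_contra hne
  have h6 : (symmDiff T T').Nonempty := by
    rw [Finset.nonempty_iff_ne_empty]
    intro h7
    exact hne (symmDiff_eq_bot.1 h7)
  obtain ⟨l, hl⟩ := h6
  have hlp := (h.pr _ h0 l hl).1
  have h7 : l ∣ m := by
    have h8 : l ∣ m * m := by
      rw [← hm]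
      exact Finset.dvd_prod_of_mem _ hl
    exact (hlp.dvd_mul.1 h8).elim id id
  have h8 : l * l ∣ ∏ l ∈ symmDiff T T', l := by
    rw [hm]
    exact mul_dvd_mul h7 h7
  rw [← Finset.mul_prod_erase _ _ hl] at h8
  have h9 := Nat.dvd_of_mul_dvd_mul_left hlp.pos h8
  obtain ⟨l', hl', hd⟩ := (Prime.dvd_finsetProd_iff hlp.prime _).1 h9
  have h10 := (Nat.prime_dvd_prime_iff_eq hlp (h.pr _ h0 l' (Finset.mem_of_mem_erase hl')).1).1 hd
  exact (Finset.mem_erase.1 hl').1 h10.symm

/-- the sign character -/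
noncomputable def MQ.chr (h : MQ F H r) {T : Finset ℕ} (hT : T ∈ H) : (F ≃ₐ[ℚ] F) →* F where
  toFun σ := σ (r T) / r T
  map_one' := div_self (h.r_ne hT)
  map_mul' σ τ := by
    rw [AlgEquiv.mul_apply]
    have h0 := h.r_ne hT
    rcases h.sgn σ hT with h1 | h1 <;> rcases h.sgn τ hT with h2 | h2 <;>
      simp [h1, h2, h0]

theorem MQ.finrank_eq (h : MQ F H r) : Module.finrank ℚ F = H.card := by
  classical
  have hG := h.isGalois
  apply le_antisymm
  · have h1 := finrank_span_finset_le_card (R := ℚ) (H.image r)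
    rw [Finset.coe_image] at h1
    rw [Set.finrank, h.span_top, finrank_top] at h1
    exact h1.trans Finset.card_image_le
  · have hli := linearIndependent_monoidHom (F ≃ₐ[ℚ] F) F
    let e : H → ((F ≃ₐ[ℚ] F) →* F) := fun T => h.chr T.2
    have he : Function.Injective e := by
      intro T T' hTT
      refine Subtype.ext (h.inj T.2 T'.2 fun σ => ?_)
      have h2 : σ (r T) / r T = σ (r T') / r T' := DFunLike.congr_fun hTT σ
      have h3 := h.r_ne T.2
      have h4 := h.r_ne T'.2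
      constructor
      · intro h5
        rw [h5, div_self h3] at h2
        exact (eq_div_iff h4).1 h2 ▸ (one_mul _)
      · intro h5
        rw [h5, div_self h4, div_eq_one_iff_eq h3] at h2
        exact h2
    have h5 := (hli.comp e he).fintype_card_le_finrank
    rw [Fintype.card_coe, Module.finrank_fintype_fun_eq_card, ← Nat.card_eq_fintype_card,
      IsGalois.card_aut_eq_finrank] at h5
    exact h5

end

end Run7.h401.Fl
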